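import Pool.Agent.D0H61.CC.Stm

/-! Twisted sums over primes against the integral: the elementary part. -/

set_option autoImplicit false

namespace Pool.Agent.D0H42.CC

open Filter Topology MeasureTheory Finset
open Pool.Agent.D0H61.CC

/-- the sum of `log p * p ^ (i τ)` up to `M` -/
noncomputable def PS (M : ℕ) (τ : ℝ) : ℂ :=
  ∑ n ∈ Icc 1 M, ((if n.Prime then Real.log n else 0 : ℝ) : ℂ) * ex (τ * Real.log n)

/-- the sum of `n ^ (i τ)` up to `M` -/
noncomputable def OS (M : ℕ) (τ : ℝ) : ℂ := ∑ n ∈ Icc 1 M, ex (τ * Real.log n)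

/-- primes against integers -/
def HNeg : Prop := ∀ A K : ℕ, ∃ C : ℝ, ∀ (N : ℕ) (τ : ℝ), 2 ≤ N → |τ| ≤ (N : ℝ) ^ A →
  ‖PS N τ - OS N τ‖ ≤ C * N / (Real.log N) ^ K

/-- high frequencies -/
def HZ : Prop := ∀ K : ℝ, 1 ≤ K → ∃ c : ℝ, 0 < c ∧ c ≤ 1 ∧ ∃ N0 : ℕ, ∀ N : ℕ, N0 ≤ N → ∀ t : ℝ,
    (N : ℝ) ^ (1 / 2 : ℝ) ≤ |t| → |t| ≤ (N : ℝ) ^ K → ‖OS N t‖ ≤ (N : ℝ) ^ (1 - c)

theorem ex_nrm (x : ℝ) : ‖ex x‖ = 1 := by
  unfold ex
  exact Complex.norm_exp_ofReal_mul_I _

theorem ex_cont : Continuous ex := by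
  unfold ex
  fun_prop

theorem ex_sub_le (x y : ℝ) : ‖ex x - ex y‖ ≤ |x - y| := by
  have h : ex x = ex y * ex (x - y) := by
    unfold ex
    rw [← Complex.exp_add]
    congr 1
    push_cast
    ring
  rw [h, show ex y * ex (x - y) - ex y = ex y * (ex (x - y) - 1) by ring, norm_mul, ex_nrm, one_mul]
  have := Real.norm_exp_I_mul_ofReal_sub_one_le (x := x - y)
  rw [Real.norm_eq_abs] at this
  unfold ex
  rw [mul_comm]
  exact this

/-- the function `x ^ (i τ)` is integrable -/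
theorem int_ii (τ : ℝ) {a b : ℝ} (ha : 0 < a) (hb : 0 < b) :
    IntervalIntegrable (fun x : ℝ => ex (τ * Real.log x)) volume a b := by
  apply ContinuousOn.intervalIntegrable
  intro x hx
  have hx0 : x ≠ 0 := by
    have h1 : min a b ≤ x := hx.1
    have h2 : 0 < min a b := lt_min ha hb
    exact ne_of_gt (h2.trans_le h1)
  apply ContinuousAt.continuousWithinAt
  exact ex_cont.continuousAt.comp (continuousAt_const.mul (Real.continuousAt_log hx0))

/-- the integral -/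
theorem int_eq (τ : ℝ) {a b : ℝ} (ha : 0 < a) (hab : a ≤ b) :
    ∫ x in a..b, ex (τ * Real.log x) =
      (b * ex (τ * Real.log b) - a * ex (τ * Real.log a)) / (1 + τ * Complex.I) := by
  have hne : (1 : ℂ) + τ * Complex.I ≠ 0 := by
    intro h
    have := congrArg Complex.re h
    simp at this
  have hd : ∀ x ∈ Set.uIcc a b, HasDerivAt (fun x : ℝ => ((x : ℂ) * ex (τ * Real.log x)) / (1 + τ * Complex.I))
      (ex (τ * Real.log x)) x := by
    intro x hx
    rw [Set.uIcc_of_le hab] at hx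
    have hx0 : 0 < x := by linarith [hx.1]
    have hx0' : (x : ℂ) ≠ 0 := by exact_mod_cast hx0.ne'
    have h1 : HasDerivAt (fun x : ℝ => (x : ℂ)) 1 x := Complex.ofRealCLM.hasDerivAt
    have h2 : HasDerivAt (fun x : ℝ => ((τ * Real.log x : ℝ) : ℂ) * Complex.I)
        (((τ * x⁻¹ : ℝ) : ℂ) * Complex.I) x :=
      (((Real.hasDerivAt_log hx0.ne').const_mul τ).ofReal_comp).mul_const _
    have h3 := (h1.mul h2.cexp).div_const (1 + τ * Complex.I)
    refine h3.congr_deriv ?_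
    unfold ex
    rw [div_eq_iff hne]
    push_cast
    field_simp
  rw [intervalIntegral.integral_eq_sub_of_hasDerivAt hd (int_ii τ ha (by linarith))]
  ring

theorem int_le (τ : ℝ) (hτ : τ ≠ 0) {a b : ℝ} (ha : 0 < a) (hab : a ≤ b) :
    ‖∫ x in a..b, ex (τ * Real.log x)‖ ≤ 2 * b / |τ| := by
  rw [int_eq τ ha hab, norm_div]
  have h1 : |τ| ≤ ‖(1 : ℂ) + τ * Complex.I‖ := by
    have := Complex.abs_im_le_norm ((1 : ℂ) + τ * Complex.I)
    simpa using this
  have h0 : 0 < |τ| := abs_pos.2 hτ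
  have h2 : ‖(b : ℂ) * ex (τ * Real.log b) - a * ex (τ * Real.log a)‖ ≤ 2 * b := by
    refine (norm_sub_le _ _).trans ?_
    rw [norm_mul, norm_mul, ex_nrm, ex_nrm, mul_one, mul_one, Complex.norm_real, Complex.norm_real,
      Real.norm_of_nonneg ha.le, Real.norm_of_nonneg (by linarith)]
    linarith
  exact div_le_div₀ (by linarith) h2 h0 h1

theorem int_triv (τ : ℝ) {a b : ℝ} (hab : a ≤ b) : ‖∫ x in a..b, ex (τ * Real.log x)‖ ≤ b - a := by
  have := intervalIntegral.norm_integral_le_of_norm_le_const (a := a) (b := b) (C := 1)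
    (f := fun x : ℝ => ex (τ * Real.log x)) (fun x _ => (ex_nrm _).le)
  rwa [one_mul, abs_of_nonneg (by linarith)] at this

/-- low frequencies -/
theorem low (τ : ℝ) (M : ℕ) : ‖OS (M + 1) τ - ∫ x in (1 : ℝ)..((M + 1 : ℕ) : ℝ), ex (τ * Real.log x)‖ ≤
    |τ| * Real.log ((M + 1 : ℕ) : ℝ) + 1 := by
  induction M with
  | zero =>
    unfold OS
    simp [ex]
  | succ M ih =>
    have hp : (0 : ℝ) < ((M + 1 : ℕ) : ℝ) := by positivity
    have hp2 : (0 : ℝ) < ((M + 1 + 1 : ℕ) : ℝ) := by positivity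
    have hle : ((M + 1 : ℕ) : ℝ) ≤ ((M + 1 + 1 : ℕ) : ℝ) := by push_cast; linarith
    have e1 : OS (M + 1 + 1) τ = OS (M + 1) τ + ex (τ * Real.log ((M + 1 + 1 : ℕ) : ℝ)) := by
      unfold OS
      rw [Finset.sum_Icc_succ_top (by omega)]
    have e2 : ∫ x in (1 : ℝ)..((M + 1 + 1 : ℕ) : ℝ), ex (τ * Real.log x) =
        (∫ x in (1 : ℝ)..((M + 1 : ℕ) : ℝ), ex (τ * Real.log x)) +
        ∫ x in ((M + 1 : ℕ) : ℝ)..((M + 1 + 1 : ℕ) : ℝ), ex (τ * Real.log x) :=
      (intervalIntegral.integral_add_adjacent_intervals (int_ii τ one_pos hp) (int_ii τ hp hp2)).symm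
    have e3 : ex (τ * Real.log ((M + 1 + 1 : ℕ) : ℝ)) =
        ∫ x in ((M + 1 : ℕ) : ℝ)..((M + 1 + 1 : ℕ) : ℝ), ex (τ * Real.log ((M + 1 + 1 : ℕ) : ℝ)) := by
      rw [intervalIntegral.integral_const]
      push_cast
      simp
    have e4 : ‖ex (τ * Real.log ((M + 1 + 1 : ℕ) : ℝ)) -
        ∫ x in ((M + 1 : ℕ) : ℝ)..((M + 1 + 1 : ℕ) : ℝ), ex (τ * Real.log x)‖ ≤
        |τ| * (Real.log ((M + 1 + 1 : ℕ) : ℝ) - Real.log ((M + 1 : ℕ) : ℝ)) := by
      rw [e3, ← intervalIntegral.integral_sub intervalIntegrable_const (int_ii τ hp hp2)]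
      have h := intervalIntegral.norm_integral_le_of_norm_le_const
        (a := ((M + 1 : ℕ) : ℝ)) (b := ((M + 1 + 1 : ℕ) : ℝ))
        (C := |τ| * (Real.log ((M + 1 + 1 : ℕ) : ℝ) - Real.log ((M + 1 : ℕ) : ℝ)))
        (f := fun x : ℝ => ex (τ * Real.log ((M + 1 + 1 : ℕ) : ℝ)) - ex (τ * Real.log x)) (fun x hx => by
          rw [Set.uIoc_of_le hle] at hx
          refine (ex_sub_le _ _).trans ?_
          rw [← mul_sub, abs_mul]
          apply mul_le_mul_of_nonneg_left _ (abs_nonneg _)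
          have hx0 : 0 < x := by linarith [hx.1]
          have l1 := Real.log_le_log hp hx.1.le
          have l2 := Real.log_le_log hx0 hx.2
          rw [abs_of_nonneg (by linarith)]
          linarith)
      refine h.trans (le_of_eq ?_)
      push_cast
      rw [show ((M : ℝ) + 1 + 1 - (M + 1)) = 1 by ring, abs_one, mul_one]
    rw [e1, e2, add_sub_add_comm]
    refine (norm_add_le _ _).trans ((add_le_add ih e4).trans (le_of_eq ?_))
    ring

theorem low' (τ : ℝ) (M : ℕ) (hM : 1 ≤ M) : ‖OS M τ - ∫ x in (1 : ℝ)..(M : ℝ), ex (τ * Real.log x)‖ ≤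
    |τ| * Real.log (M : ℝ) + 1 := by
  obtain ⟨m, rfl⟩ : ∃ m, M = m + 1 := ⟨M - 1, by omega⟩
  exact low τ m

/-- the comparison at natural numbers -/
theorem cmp (h1 : HNeg) (h2 : HZ) (A K : ℕ) (ε : ℝ) (hε : 0 < ε) : ∀ᶠ M : ℕ in atTop, ∀ τ : ℝ,
    |τ| ≤ (M : ℝ) ^ A → ‖PS M τ - ∫ x in (1 : ℝ)..(M : ℝ), ex (τ * Real.log x)‖ ≤ ε * M / Real.log M ^ K := by
  obtain ⟨C, hC⟩ := h1 A (K + 1)
  obtain ⟨c, hc, hc1, N0, hN0⟩ := h2 (A + 1) (by
    have : (0 : ℝ) ≤ A := Nat.cast_nonneg A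
    linarith)
  have hlog : Tendsto (fun N : ℕ => Real.log (N : ℝ)) atTop atTop :=
    Real.tendsto_log_atTop.comp tendsto_natCast_atTop_atTop
  -- `(log N)^(K+1) ≤ N ^ s` small
  have hsm : ∀ s : ℝ, 0 < s → ∀ η : ℝ, 0 < η → ∀ᶠ N : ℕ in atTop,
      Real.log (N : ℝ) ^ (K + 1) ≤ η * (N : ℝ) ^ s := by
    intro s hs η hη
    have h := (isLittleO_log_rpow_rpow_atTop ((K + 1 : ℕ) : ℝ) hs).bound hη
    have h' := tendsto_natCast_atTop_atTop.eventually h
    filter_upwards [h', eventually_ge_atTop 1] with N hN hN1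
    have hl : 0 ≤ Real.log (N : ℝ) := Real.log_natCast_nonneg N
    rw [Real.rpow_natCast, Real.norm_of_nonneg (by positivity), Real.norm_of_nonneg (by positivity)] at hN
    exact hN
  filter_upwards [hlog.eventually_ge_atTop (3 * (|C| + 1) / ε), hlog.eventually_ge_atTop 1, eventually_ge_atTop 2,
    eventually_ge_atTop N0, hsm c hc (ε / 9) (by positivity), hsm (1 / 2) (by norm_num) (ε / 9) (by positivity)]
    with M hM1 hM2 hM3 hM4 hM5 hM6 τ hτ
  have hMR : (2 : ℝ) ≤ M := by exact_mod_cast hM3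
  have hM0 : (0 : ℝ) < M := by linarith
  obtain ⟨L, hL⟩ : ∃ L, L = Real.log (M : ℝ) := ⟨_, rfl⟩
  rw [← hL] at hM1 hM2 hM5 hM6 ⊢
  have hL0 : 0 < L := by linarith
  have hLK : 0 < L ^ K := by positivity
  have a1 : ‖PS M τ - OS M τ‖ ≤ ε / 3 * M / L ^ K := by
    refine (hC M τ hM3 hτ).trans ?_
    rw [← hL, pow_succ, div_le_div_iff₀ (by positivity) hLK]
    have b1 : C ≤ ε / 3 * L := by
      rw [div_le_iff₀ hε] at hM1
      have := le_abs_self C
      linarith
    have b2 : C * M ≤ ε / 3 * L * M := mul_le_mul_of_nonneg_right b1 hM0.le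
    calc C * M * L ^ K ≤ ε / 3 * L * M * L ^ K := mul_le_mul_of_nonneg_right b2 hLK.le
      _ = ε / 3 * M * (L ^ K * L) := by ring
  have a2 : ‖OS M τ - ∫ x in (1 : ℝ)..(M : ℝ), ex (τ * Real.log x)‖ ≤ 2 * ε / 3 * M / L ^ K := by
    have hsq : (M : ℝ) ^ (1 / 2 : ℝ) * (M : ℝ) ^ (1 / 2 : ℝ) = M := by
      rw [← Real.rpow_add hM0]
      norm_num
    obtain ⟨q, hq⟩ : ∃ q, q = (M : ℝ) ^ (1 / 2 : ℝ) := ⟨_, rfl⟩
    have hq0 : 0 < q := by
      rw [hq]
      positivity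
    have hq1 : 1 ≤ q := by
      rw [hq]
      exact Real.one_le_rpow (by linarith) (by norm_num)
    rw [← hq] at hsq hM6
    have hLL : L ≤ L ^ (K + 1) := by
      calc L = L ^ 1 := (pow_one L).symm
        _ ≤ L ^ (K + 1) := pow_le_pow_right₀ hM2 (by omega)
    have hLL' : L ^ K ≤ L ^ (K + 1) := pow_le_pow_right₀ hM2 (by omega)
    rcases le_total q |τ| with h | h
    · -- high
      have hτ0 : τ ≠ 0 := by
        intro h0
        rw [h0, abs_zero] at h
        linarith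
      have hb : |τ| ≤ (M : ℝ) ^ ((A : ℝ) + 1) := by
        refine hτ.trans ?_
        rw [← Real.rpow_natCast]
        exact Real.rpow_le_rpow_of_exponent_le (by linarith) (by linarith)
      have b1 := hN0 M hM4 τ (by rw [← hq]; exact h) hb
      have b2 := int_le τ hτ0 one_pos (show (1 : ℝ) ≤ M by linarith)
      have b3 : 2 * (M : ℝ) / |τ| ≤ 2 * q := by
        rw [div_le_iff₀ (abs_pos.2 hτ0)]
        nlinarith
      have b4 : (M : ℝ) ^ (1 - c) ≤ ε / 9 * M / L ^ K := by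
        rw [le_div_iff₀ hLK, Real.rpow_sub hM0, Real.rpow_one]
        have hy0 : 0 < (M : ℝ) ^ c := by positivity
        rw [div_mul_eq_mul_div, div_le_iff₀ hy0]
        have : L ^ K ≤ ε / 9 * (M : ℝ) ^ c := hLL'.trans hM5
        calc (M : ℝ) * L ^ K ≤ M * (ε / 9 * (M : ℝ) ^ c) := mul_le_mul_of_nonneg_left this hM0.le
          _ = ε / 9 * M * (M : ℝ) ^ c := by ring
      have b5 : q ≤ ε / 9 * M / L ^ K := by
        rw [le_div_iff₀ hLK]
        have : L ^ K ≤ ε / 9 * q := hLL'.trans hM6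
        calc q * L ^ K ≤ q * (ε / 9 * q) := mul_le_mul_of_nonneg_left this hq0.le
          _ = ε / 9 * (q * q) := by ring
          _ = ε / 9 * M := by rw [hsq]
      refine (norm_sub_le _ _).trans ?_
      have e : 2 * ε / 3 * M / L ^ K = 6 * (ε / 9 * M / L ^ K) := by ring
      rw [e]
      have : 0 ≤ ε / 9 * M / L ^ K := by positivity
      linarith
    · -- low
      have b1 := low' τ M (by omega)
      rw [← hL] at b1
      have b2 : |τ| * L + 1 ≤ 2 * (q * L) := by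
        have : |τ| * L ≤ q * L := mul_le_mul_of_nonneg_right h hL0.le
        nlinarith
      have b5 : q * L ≤ ε / 9 * M / L ^ K := by
        rw [le_div_iff₀ hLK]
        calc q * L * L ^ K = q * L ^ (K + 1) := by ring
          _ ≤ q * (ε / 9 * q) := mul_le_mul_of_nonneg_left hM6 hq0.le
          _ = ε / 9 * (q * q) := by ring
          _ = ε / 9 * M := by rw [hsq]
      have e : 2 * ε / 3 * M / L ^ K = 6 * (ε / 9 * M / L ^ K) := by ring
      rw [e]
      have : 0 ≤ ε / 9 * M / L ^ K := by positivity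
      linarith
  calc ‖PS M τ - ∫ x in (1 : ℝ)..(M : ℝ), ex (τ * Real.log x)‖
      = ‖(PS M τ - OS M τ) + (OS M τ - ∫ x in (1 : ℝ)..(M : ℝ), ex (τ * Real.log x))‖ := by
        congr 1
        ring
    _ ≤ ε / 3 * M / L ^ K + 2 * ε / 3 * M / L ^ K := (norm_add_le _ _).trans (add_le_add a1 a2)
    _ = ε * M / L ^ K := by ring

theorem zp_of (h1 : HNeg) (h2 : HZ) : S_ZP := by
  classical
  intro R hR A K
  have hR0 : 0 < R := by linarith
  obtain ⟨ε, hε⟩ : ∃ ε : ℝ, ε = 1 / (4 * R * 2 ^ K) := ⟨_, rfl⟩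
  have hε0 : 0 < ε := by
    rw [hε]
    positivity
  obtain ⟨M0, hM0⟩ := (cmp h1 h2 (A + 1) K ε hε0).exists_forall_of_atTop
  have hlogN : Tendsto (fun N : ℕ => Real.log (N : ℝ)) atTop atTop :=
    Real.tendsto_log_atTop.comp tendsto_natCast_atTop_atTop
  have hK : ∀ᶠ N : ℕ in atTop, Real.log (N : ℝ) ^ K ≤ 1 / 4 * N := by
    have h := (Real.isLittleO_pow_log_id_atTop (n := K)).bound (show (0 : ℝ) < 1 / 4 by norm_num)
    have h' := tendsto_natCast_atTop_atTop.eventually h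
    filter_upwards [h', eventually_ge_atTop 1] with N hN hN1
    have hl : 0 ≤ Real.log (N : ℝ) := Real.log_natCast_nonneg N
    rw [id, Real.norm_of_nonneg (by positivity), Real.norm_of_nonneg (by positivity)] at hN
    exact hN
  have hcast : Tendsto (fun N : ℕ => (N : ℝ)) atTop atTop := tendsto_natCast_atTop_atTop
  filter_upwards [hK, hcast.eventually_ge_atTop ((2 * R) ^ (A + 1)), hcast.eventually_ge_atTop ((2 * R) ^ 2),
    hcast.eventually_ge_atTop (2 * R * (M0 + 1)), hlogN.eventually_ge_atTop 1, eventually_ge_atTop 2]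
    with N hN1 hN2 hN3 hN4 hN5 hN6 y₁ y₂ τ hy1 hy12 hy2 hτ
  have hNR : (2 : ℝ) ≤ N := by exact_mod_cast hN6
  have hN0 : (0 : ℝ) < N := by linarith
  obtain ⟨L, hL⟩ : ∃ L, L = Real.log (N : ℝ) := ⟨_, rfl⟩
  rw [← hL] at hN1 hN5 ⊢
  have hL0 : 0 < L := by linarith
  have hLK : 0 < L ^ K := by positivity
  have hM0' : (0 : ℝ) ≤ M0 := Nat.cast_nonneg M0
  -- one endpoint
  have one : ∀ y : ℝ, N / R ≤ y → y ≤ R * N →
      ‖PS ⌊y⌋₊ τ - ∫ x in (1 : ℝ)..y, ex (τ * Real.log x)‖ ≤ 1 / 4 * (N / L ^ K) + 1 := by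
    intro y ha hb
    have c0 : 2 * (M0 + 1) ≤ N / R := by
      rw [le_div_iff₀ hR0]
      linarith
    have hy0 : 0 ≤ y := by linarith
    have c1 : y < ⌊y⌋₊ + 1 := Nat.lt_floor_add_one y
    have c2 : (⌊y⌋₊ : ℝ) ≤ y := Nat.floor_le hy0
    obtain ⟨M, hM⟩ : ∃ M, M = ⌊y⌋₊ := ⟨_, rfl⟩
    rw [← hM] at c1 c2 ⊢
    have c3 : N / (2 * R) ≤ M := by
      have : N / (2 * R) = N / R / 2 := by
        rw [mul_comm, div_mul_eq_div_div]
      rw [this]
      linarith
    have c4 : M0 ≤ M := by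
      have : (M0 : ℝ) ≤ M := by linarith
      exact_mod_cast this
    have c5 : (1 : ℝ) ≤ M := by linarith
    have c5' : (0 : ℝ) < M := by linarith
    have c6 : |τ| ≤ (M : ℝ) ^ (A + 1) := by
      refine hτ.trans ?_
      calc (N : ℝ) ^ A ≤ (N / (2 * R)) ^ (A + 1) := by
            rw [div_pow, le_div_iff₀ (by positivity), pow_succ (N : ℝ) A]
            exact mul_le_mul_of_nonneg_left hN2 (by positivity)
        _ ≤ (M : ℝ) ^ (A + 1) := pow_le_pow_left₀ (by positivity) c3 _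
    have c7 := hM0 M c4 τ c6
    have c8 : L / 2 ≤ Real.log M := by
      have h3 : (N : ℝ) ^ (1 / 2 : ℝ) ≤ M := by
        refine le_trans ?_ c3
        rw [le_div_iff₀ (by positivity)]
        have hsq : (N : ℝ) ^ (1 / 2 : ℝ) * (N : ℝ) ^ (1 / 2 : ℝ) = N := by
          rw [← Real.rpow_add hN0]
          norm_num
        have hq0 : 0 < (N : ℝ) ^ (1 / 2 : ℝ) := by positivity
        have h4 : 2 * R ≤ (N : ℝ) ^ (1 / 2 : ℝ) := by
          rw [← Real.sqrt_eq_rpow]
          exact Real.le_sqrt_of_sq_le hN3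
        nlinarith
      have h5 := Real.log_le_log (by positivity) h3
      rw [Real.log_rpow hN0, ← hL] at h5
      linarith
    have c9 : ε * M / Real.log M ^ K ≤ 1 / 4 * (N / L ^ K) := by
      have d1 : (L / 2) ^ K ≤ Real.log M ^ K := pow_le_pow_left₀ (by positivity) c8 _
      have d2 : ε * M ≤ ε * (R * N) := mul_le_mul_of_nonneg_left (c2.trans hb) hε0.le
      calc ε * M / Real.log M ^ K ≤ ε * (R * N) / (L / 2) ^ K :=
            div_le_div₀ (by positivity) d2 (by positivity) d1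
        _ = 1 / 4 * (N / L ^ K) := by
            rw [hε, div_pow]
            field_simp
    have c10 : ∫ x in (1 : ℝ)..y, ex (τ * Real.log x) = (∫ x in (1 : ℝ)..(M : ℝ), ex (τ * Real.log x)) +
        ∫ x in (M : ℝ)..y, ex (τ * Real.log x) :=
      (intervalIntegral.integral_add_adjacent_intervals (int_ii τ one_pos c5')
        (int_ii τ c5' (by linarith))).symm
    have c11 := int_triv τ c2
    rw [c10, ← sub_sub]
    refine (norm_sub_le _ _).trans ?_
    linarith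
  have hy1p : 0 < y₁ := by
    have : 0 < N / R := by positivity
    linarith
  have o1 := one y₁ hy1 (hy12.trans hy2)
  have o2 := one y₂ (hy1.trans hy12) hy2
  have hfl : ⌊y₁⌋₊ ≤ ⌊y₂⌋₊ := Nat.floor_mono hy12
  have e1 : ∑ p ∈ prs y₁ y₂, ((Real.log p : ℝ) : ℂ) * ex (τ * Real.log p) = PS ⌊y₂⌋₊ τ - PS ⌊y₁⌋₊ τ := by
    have hs : ∀ M : ℕ, PS M τ = ∑ n ∈ (Icc 1 M).filter (fun n => n.Prime),
        ((Real.log n : ℝ) : ℂ) * ex (τ * Real.log n) := by
      intro M
      unfold PS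
      rw [Finset.sum_filter]
      refine Finset.sum_congr rfl fun n _ => ?_
      split_ifs <;> simp
    rw [hs, hs, eq_sub_iff_add_eq]
    rw [← Finset.sum_union]
    · apply Finset.sum_congr _ (fun _ _ => rfl)
      ext p
      unfold prs
      simp only [Finset.mem_union, Finset.mem_filter, Finset.mem_Icc]
      constructor
      · rintro (⟨⟨h1, h2⟩, h3, h4⟩ | ⟨⟨h1, h2⟩, h3⟩)
        · exact ⟨⟨h1, h2⟩, h3⟩
        · exact ⟨⟨h1, h2.trans hfl⟩, h3⟩
      · rintro ⟨⟨h1, h2⟩, h3⟩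
        by_cases h : y₁ < p
        · exact Or.inl ⟨⟨h1, h2⟩, h3, h⟩
        · exact Or.inr ⟨⟨h1, Nat.le_floor (not_lt.1 h)⟩, h3⟩
    · rw [Finset.disjoint_left]
      intro p hp hp'
      unfold prs at hp
      rw [Finset.mem_filter] at hp hp'
      have q1 := (Finset.mem_Icc.1 hp'.1).2
      have q2 := hp.2.2
      have q3 : (p : ℝ) ≤ y₁ := (Nat.le_floor_iff hy1p.le).1 q1
      linarith
  have e2 : ∫ x in y₁..y₂, ex (τ * Real.log x) = (∫ x in (1 : ℝ)..y₂, ex (τ * Real.log x)) -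
      ∫ x in (1 : ℝ)..y₁, ex (τ * Real.log x) := by
    rw [eq_sub_iff_add_eq, add_comm]
    exact intervalIntegral.integral_add_adjacent_intervals (int_ii τ one_pos hy1p) (int_ii τ hy1p (by linarith))
  rw [e1, e2, sub_sub_sub_comm]
  refine (norm_sub_le _ _).trans ((add_le_add o2 o1).trans ?_)
  have hbig : 4 ≤ N / L ^ K := by
    rw [le_div_iff₀ hLK]
    linarith
  linarith

end Pool.Agent.D0H42.CC
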