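import Pool.Agent.D0H91.US.Z
import Pool.Agent.D0H91.MG.Base
import Pool.Agent.D0H42.CC.Zc

/-! Twisted sums over primes against the integral, for all frequencies up to a power of `N`. -/

set_option autoImplicit false

namespace Pool.Agent.D0H42.CC

open Filter Topology MeasureTheory Finset
open Pool.Agent.D0H61.CC
open Pool.Agent.D0H91.MG (tb tb_neg SD)
open Pool.Agent.H376R2.MR (er)

theorem er_ex (τ x : ℝ) : er τ x = ex (τ * x) := rfl

theorem hneg : HNeg := by
  intro A K
  obtain ⟨C, hC⟩ := tb_neg A K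
  refine ⟨C, fun N τ hN hτ => ?_⟩
  have e : PS N τ - OS N τ = ∑ n ∈ Finset.Icc 1 N, tb n * er τ (Real.log n) := by
    unfold PS OS tb
    rw [← Finset.sum_sub_distrib]
    refine Finset.sum_congr rfl fun n _ => ?_
    rw [er_ex]
    unfold Pool.Agent.W301.SS.om
    push_cast
    ring
  rw [e]
  exact hC N τ hN hτ

theorem hz : HZ := by
  intro K hK
  obtain ⟨c, hc, hc1, N0, hN0⟩ := Pool.Agent.D0H91.US.zsum K hK
  refine ⟨c, hc, hc1, N0, fun N hN t h1 h2 => ?_⟩
  have e : OS N t = SD Pool.Agent.D0H91.US.one N t := by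
    unfold OS SD Pool.Agent.D0H91.US.one
    refine Finset.sum_congr rfl fun n _ => ?_
    rw [er_ex, one_mul]
  rw [e]
  exact hN0 N hN t h1 h2

/-- **ZP** -/
theorem t_ZP : S_ZP := zp_of hneg hz

end Pool.Agent.D0H42.CC
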